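import Pool.Agent.Helper15.EP.St

set_option autoImplicit false

/-!
Project EP, module CC1 (numerical)
-/

namespace Pool.Agent.Helper15.EP

theorem hCC1 : StCC1 := by
  unfold StCC1 TT
  decide +kernel

end Pool.Agent.Helper15.EP
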