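import Pool.Agent.Helper15.EP.St

set_option autoImplicit false

/-!
Project EP, module CRR
-/

open Polynomial

namespace Pool.Agent.Helper15.EP

open Pool.Agent.Helper15.FC

open scoped Classical in
private theorem mem_Tup {F : Type} [Field F] [Fintype F] {k : ℕ} {x : Fin k → ℕ}
    {a : Fin k → F[X]} : a ∈ Tup F x ↔ ∀ i, (a i).Monic ∧ (a i).natDegree = x i := by
  unfold Tup
  rw [Fintype.mem_piFinset]
  exact forall_congr' fun i => mem_Mn

private theorem prod_mem {F : Type} [Field F] [Fintype F] {k n : ℕ} {x : Fin k → ℕ}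
    (hx : ∑ i, x i = n) {a : Fin k → F[X]} (ha : a ∈ Tup F x) : (∏ i, a i) ∈ Mn F n := by
  rw [mem_Tup] at ha
  refine mem_Mn.2 ⟨monic_prod_of_monic _ _ fun i _ => (ha i).1, ?_⟩
  rw [natDegree_prod_of_monic _ _ fun i _ => (ha i).1, ← hx]
  exact Finset.sum_congr rfl fun i _ => (ha i).2

open scoped Classical in
private theorem dkP {F : Type} [Field F] [Fintype F] (k n : ℕ) (f : F[X]) (hf : f ∈ Mn F n) :
    dk k f = ∑ x ∈ Finset.Nat.antidiagonalTuple k n,
      ((Tup F x).filter (fun a => ∏ i, a i = f)).card := by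
  rw [← Finset.card_biUnion]
  · unfold dk
    refine Nat.subtype_card _ fun g => ?_
    rw [Finset.mem_biUnion]
    constructor
    · rintro ⟨x, -, hg⟩
      rw [Finset.mem_filter, mem_Tup] at hg
      exact ⟨fun i => (hg.1 i).1, hg.2⟩
    · rintro ⟨h1, h2⟩
      refine ⟨fun i => (g i).natDegree, ?_, ?_⟩
      · rw [Finset.Nat.mem_antidiagonalTuple, ← natDegree_prod_of_monic _ _ fun i _ => h1 i, h2]
        exact (mem_Mn.1 hf).2
      · rw [Finset.mem_filter, mem_Tup]
        exact ⟨fun i => ⟨h1 i, rfl⟩, h2⟩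
  · intro x _ y _ hxy
    rw [Function.onFun, Finset.disjoint_left]
    intro a ha hb
    rw [Finset.mem_filter, mem_Tup] at ha hb
    exact hxy (funext fun i => (ha.1 i).2.symm.trans (hb.1 i).2)

open scoped Classical in
private theorem nsP {F : Type} [Field F] [Fintype F] (k l n : ℕ) (x : Fin k → ℕ)
    (y : Fin l → ℕ) (h : F[X]) (hx : ∑ i, x i = n) :
    NS x y h = ∑ f ∈ Mn F n, ((Tup F x).filter (fun a => ∏ i, a i = f)).card *
      ((Tup F y).filter (fun b => ∏ i, b i = f + h)).card := by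
  unfold NS
  rw [Finset.card_eq_sum_card_fiberwise (f := fun p : (Fin k → F[X]) × (Fin l → F[X]) =>
    ∏ i, p.1 i) (t := Mn F n)]
  · refine Finset.sum_congr rfl fun f _ => ?_
    rw [← Finset.card_product]
    congr 1
    ext p
    simp only [Finset.mem_filter, Finset.mem_product]
    constructor
    · rintro ⟨⟨⟨h1, h2⟩, h3⟩, h4⟩
      exact ⟨⟨h1, h4⟩, h2, by rw [← h3, h4]⟩
    · rintro ⟨⟨h1, h4⟩, h2, h3⟩
      exact ⟨⟨⟨h1, h2⟩, by rw [h3, h4]⟩, h4⟩
  · intro p hp
    have hp' := Finset.mem_coe.1 hp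
    rw [Finset.mem_filter, Finset.mem_product] at hp'
    exact Finset.mem_coe.2 (prod_mem hx hp'.1.1)

theorem hCRR : StCRR := by
  intro F _ _ k l n h hh
  classical
  unfold Corr
  have h1 : ∀ f ∈ Mn F n, f + h ∈ Mn F n := by
    intro f hf
    obtain ⟨h1, h2⟩ := mem_Mn.1 hf
    have h3 : h.degree < f.degree := by
      rw [degree_eq_natDegree h1.ne_zero, h2]
      exact hh
    exact mem_Mn.2 ⟨h1.add_of_left h3, by rw [natDegree_add_eq_left_of_degree_lt h3, h2]⟩
  have h2 : ∀ f ∈ Mn F n, dk k f * dk l (f + h) =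
      ∑ x ∈ Finset.Nat.antidiagonalTuple k n, ∑ y ∈ Finset.Nat.antidiagonalTuple l n,
        ((Tup F x).filter (fun a => ∏ i, a i = f)).card *
          ((Tup F y).filter (fun b => ∏ i, b i = f + h)).card := by
    intro f hf
    rw [dkP k n f hf, dkP l n (f + h) (h1 f hf), Finset.sum_mul_sum]
  rw [Finset.sum_congr rfl h2, Finset.sum_comm]
  refine Finset.sum_congr rfl fun x hx => ?_
  rw [Finset.sum_comm]
  refine Finset.sum_congr rfl fun y _ => ?_
  rw [nsP k l n x y h (Finset.Nat.mem_antidiagonalTuple.1 hx)]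

end Pool.Agent.Helper15.EP
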