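import Pool.Agent.Helper15.EP.St

set_option autoImplicit false

open Polynomial

namespace Pool.Agent.Helper15.EP

open Pool.Agent.Helper15.FC

private theorem prodMonic {F : Type} [Field F] [Fintype F] {k : ℕ} (x : Fin k → ℕ)
    (a : Fin k → F[X]) (ha : a ∈ Tup F x) :
    (∏ i, a i).Monic ∧ (∏ i, a i).natDegree = ∑ i, x i := by
  have h1 : ∀ i, (a i).Monic ∧ (a i).natDegree = x i := fun i => by
    have := (Fintype.mem_piFinset.1 ha) i
    exact mem_Mn.1 this
  refine ⟨monic_prod_of_monic _ _ fun i _ => (h1 i).1, ?_⟩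
  rw [natDegree_prod_of_monic _ _ fun i _ => (h1 i).1]
  exact Finset.sum_congr rfl fun i _ => (h1 i).2

theorem hRDN : StRDN := by
  intro F _ _ k l n x y i0 h hx hy hh
  classical
  unfold NS AP
  rw [← Finset.card_sigma]
  have hg : ∀ b ∈ Tup F y, ((∏ j, b j) - h).Monic ∧ ((∏ j, b j) - h).natDegree = n := by
    intro b hb
    obtain ⟨h1, h2⟩ := prodMonic y b hb
    rw [hy] at h2
    have h3 : (∏ j, b j).degree = n := by rw [degree_eq_natDegree h1.ne_zero, h2]
    refine ⟨h1.sub_of_left (by rw [h3]; exact hh), ?_⟩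
    have h4 : ((∏ j, b j) - h).degree = (n : WithBot ℕ) := by
      rw [degree_sub_eq_left_of_degree_lt (by rw [h3]; exact hh), h3]
    exact natDegree_eq_of_degree_eq_some h4
  refine Finset.card_bij'
    (fun p _ => (⟨fun i => p.1 (i0.succAbove i), p.2⟩ : Σ _ : Fin k → F[X], Fin l → F[X]))
    (fun s _ => (i0.insertNth (((∏ j, s.2 j) - h) /ₘ ∏ i, s.1 i) s.1, s.2)) ?_ ?_ ?_ ?_
  · intro p hp
    rw [Finset.mem_filter, Finset.mem_product] at hp
    obtain ⟨⟨h1, h2⟩, h3⟩ := hp
    rw [Finset.mem_sigma, Finset.mem_filter]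
    refine ⟨?_, h2, ?_⟩
    · exact Fintype.mem_piFinset.2 fun i => (Fintype.mem_piFinset.1 h1) _
    · show (∏ i, p.1 (i0.succAbove i)) ∣ (∏ j, p.2 j) - h
      rw [← h3, add_sub_cancel_right, Fin.prod_univ_succAbove _ i0]
      exact Dvd.intro_left _ rfl
  · intro s hs
    rw [Finset.mem_sigma, Finset.mem_filter] at hs
    obtain ⟨h1, h2, h3⟩ := hs
    obtain ⟨m1, m2⟩ := prodMonic _ _ h1
    obtain ⟨g1, g2⟩ := hg _ h2
    obtain ⟨c, hc⟩ := h3
    have hcd : ((∏ j, s.2 j) - h) /ₘ (∏ i, s.1 i) = c := by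
      rw [hc]; exact mul_divByMonic_cancel_left c m1
    have hcm : c.Monic := by
      rw [hc] at g1
      exact m1.of_mul_monic_left g1
    have hcn : c.natDegree = x i0 := by
      have h4 := g2
      rw [hc, m1.natDegree_mul hcm, m2] at h4
      rw [Fin.sum_univ_succAbove _ i0] at hx
      omega
    rw [Finset.mem_filter, Finset.mem_product]
    refine ⟨⟨?_, h2⟩, ?_⟩
    · refine Fintype.mem_piFinset.2 ?_
      rw [Fin.forall_iff_succAbove i0]
      refine ⟨?_, fun i => ?_⟩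
      · simp only [Fin.insertNth_apply_same]
        rw [hcd]
        exact mem_Mn.2 ⟨hcm, hcn⟩
      · simp only [Fin.insertNth_apply_succAbove]
        exact (Fintype.mem_piFinset.1 h1) i
    · show (∏ i, (i0.insertNth (((∏ j, s.2 j) - h) /ₘ ∏ i, s.1 i) s.1 : Fin (k + 1) → F[X]) i) + h =
        ∏ j, s.2 j
      rw [Fin.prod_univ_succAbove _ i0]
      simp only [Fin.insertNth_apply_same, Fin.insertNth_apply_succAbove]
      rw [hcd, mul_comm, ← hc]
      ring
  · intro p hp
    rw [Finset.mem_filter, Finset.mem_product] at hp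
    obtain ⟨⟨h1, h2⟩, h3⟩ := hp
    have h4 : (fun i => p.1 (i0.succAbove i)) ∈ Tup F (fun i : Fin k => x (i0.succAbove i)) :=
      Fintype.mem_piFinset.2 fun i => (Fintype.mem_piFinset.1 h1) _
    obtain ⟨m1, -⟩ := prodMonic _ _ h4
    have h5 : ((∏ j, p.2 j) - h) /ₘ (∏ i, p.1 (i0.succAbove i)) = p.1 i0 := by
      rw [← h3, add_sub_cancel_right, Fin.prod_univ_succAbove _ i0, mul_comm]
      exact mul_divByMonic_cancel_left _ m1
    refine Prod.ext ?_ rfl
    funext i
    show (i0.insertNth (((∏ j, p.2 j) - h) /ₘ ∏ i, p.1 (i0.succAbove i))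
      (fun i => p.1 (i0.succAbove i)) : Fin (k + 1) → F[X]) i = p.1 i
    rw [h5]
    revert i
    rw [Fin.forall_iff_succAbove i0]
    exact ⟨by simp, fun i => by simp⟩
  · intro s hs
    obtain ⟨a, b⟩ := s
    simp

end Pool.Agent.Helper15.EP
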