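import Pool.Agent.Helper15.EP.St
import Pool.Agent.Helper15.FC.All
import Pool.Agent.Helper16.EP.M_KLP
import Pool.Agent.Helper78.EP.M_GPR
import Pool.Agent.Helper76.EP.M_CC3
import Pool.Agent.Helper80.EP.M_KCR
import Pool.Agent.Helper36.EP.M_VEX
import Pool.Agent.Helper31.EP.M_KSM
import Pool.Agent.Helper90.EP.M_LDB
import Pool.Agent.Helper66.EP.M_KDC
import Pool.Agent.Helper70.EP.M_KC1
import Pool.Agent.Helper86.EP.M_SPT
import Pool.Agent.Helper8.EP.M_UAV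
import Pool.Agent.Helper6.EP.M_CC2
import Pool.Agent.Helper15.EP.M_RDN
import Pool.Agent.Helper15.EP.M_CRR
import Pool.Agent.Helper54.EP.M_CSB
import Pool.Agent.Helper26.EP.M_DAC
import Pool.Agent.Helper18.EP.M_APM
import Pool.Agent.Helper29.EP.M_UPS
import Pool.Agent.Helper32.EP.M_DUB
import Pool.Agent.Helper81.EP.M_VUB
import Pool.Agent.Helper41.EP.M_UCT
import Pool.Agent.Helper91.EP.M_KC2
import Pool.Agent.Helper47.EP.M_KC3
import Pool.Agent.Helper88.EP.M_CN1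
import Pool.Agent.Helper53.EP.M_CHB
import Pool.Agent.Helper15.EP.M_CC1
import Pool.Agent.Helper45.EP.M_APE
import Pool.Agent.Helper73.EP.M_MTB
import Pool.Agent.Helper57.EP.M_KBD
import Pool.Agent.Helper78.EP.M_KCN
import Pool.Agent.Helper40.EP.M_KPT
import Pool.Agent.Helper24.EP.M_CN2
import Pool.Agent.Helper64.EP.M_TE1
import Pool.Agent.Helper22.EP.M_CNB
import Pool.Agent.Helper24.EP.M_TE2
import Pool.Agent.Helper94.EP.M_PT1
import Pool.Agent.Helper28.EP.M_CNC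
import Pool.Agent.Helper3.EP.M_PT2
import Pool.Agent.Helper31.EP.M_FNE

set_option autoImplicit false

namespace Pool.Agent.Helper15.EP

open Pool.Agent.Helper15.FC

theorem eKLP : StKLP := Pool.Agent.Helper16.EP.hKLP gWKL

theorem eGPR : StGPR := Pool.Agent.Helper78.EP.hGPR

theorem eCC3 : StCC3 := Pool.Agent.Helper76.EP.hCC3

theorem eKCR : StKCR := Pool.Agent.Helper80.EP.hKCR

theorem eVEX : StVEX := Pool.Agent.Helper36.EP.hVEX eGPR gMOB gPHI

theorem eKSM : StKSM := Pool.Agent.Helper31.EP.hKSM gTAU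

theorem eLDB : StLDB := Pool.Agent.Helper90.EP.hLDB gMAJ gLOG gCMH gZS gRH gIRB

theorem eKDC : StKDC := Pool.Agent.Helper66.EP.hKDC

theorem eKC1 : StKC1 := Pool.Agent.Helper70.EP.hKC1 gACF gNTS

theorem eSPT : StSPT := Pool.Agent.Helper86.EP.hSPT gSPL

theorem eUAV : StUAV := Pool.Agent.Helper8.EP.hUAV gRAM

theorem eCC2 : StCC2 := Pool.Agent.Helper6.EP.hCC2

theorem eRDN : StRDN := Pool.Agent.Helper15.EP.hRDN

theorem eCRR : StCRR := Pool.Agent.Helper15.EP.hCRR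

theorem eCSB : StCSB := Pool.Agent.Helper54.EP.hCSB eLDB gZS gCMH gAVT

theorem eDAC : StDAC := Pool.Agent.Helper26.EP.hDAC gACF

theorem eAPM : StAPM := Pool.Agent.Helper18.EP.hAPM eUAV eDAC gACF gRM2 gPHI

theorem eUPS : StUPS := Pool.Agent.Helper29.EP.hUPS gORR

theorem eDUB : StDUB := Pool.Agent.Helper32.EP.hDUB

theorem eVUB : StVUB := Pool.Agent.Helper81.EP.hVUB eDUB gPHI

theorem eUCT : StUCT := Pool.Agent.Helper41.EP.hUCT

theorem eKC2 : StKC2 := Pool.Agent.Helper91.EP.hKC2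

theorem eKC3 : StKC3 := Pool.Agent.Helper47.EP.hKC3 gACF gNTS

theorem eCN1 : StCN1 := Pool.Agent.Helper88.EP.hCN1

theorem eCHB : StCHB := Pool.Agent.Helper53.EP.hCHB

theorem eCC1 : StCC1 := Pool.Agent.Helper15.EP.hCC1

theorem eAPE : StAPE := Pool.Agent.Helper45.EP.hAPE eSPT eUPS eUCT eCSB gKAP gDKR gORR gPHI

theorem eMTB : StMTB := Pool.Agent.Helper73.EP.hMTB eAPM eGPR eVEX eDUB eVUB eCHB gGKM gTAU gSSP

theorem eKBD : StKBD := Pool.Agent.Helper57.EP.hKBD eKLP eKCR eUCT gDVM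

theorem eKCN : StKCN := Pool.Agent.Helper78.EP.hKCN eKBD eKC1 eKC2 eKC3 gACF gPHI

theorem eKPT : StKPT := Pool.Agent.Helper40.EP.hKPT eKCN

theorem eCN2 : StCN2 := Pool.Agent.Helper24.EP.hCN2 eCN1

theorem eTE1 : StTE1 := Pool.Agent.Helper64.EP.hTE1 eAPE

theorem eCNB : StCNB := Pool.Agent.Helper22.EP.hCNB eCN1 eCN2

theorem eTE2 : StTE2 := Pool.Agent.Helper24.EP.hTE2 eKPT eKDC eKSM gTAU

theorem ePT1 : StPT1 := Pool.Agent.Helper94.EP.hPT1 eRDN eTE1 eTE2 eMTB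

theorem eCNC : StCNC := Pool.Agent.Helper28.EP.hCNC eCC1 eCC2 eCC3 eCN1 eCN2

theorem ePT2 : StPT2 := Pool.Agent.Helper3.EP.hPT2 ePT1

theorem eFNE : StFNE := Pool.Agent.Helper31.EP.hFNE ePT2 eCRR eCNB eCNC eCN1 gSSP

end Pool.Agent.Helper15.EP
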