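import Pool.Agent.Helper15.EP.St

set_option autoImplicit false

open Polynomial

namespace Pool.Agent.Helper15.EP

open Pool.Agent.Helper15.FC

/-- the number of solutions, written out -/
theorem NS_eq {F : Type} [Field F] [Fintype F] {k l : ℕ} (x : Fin k → ℕ) (y : Fin l → ℕ)
    (h : F[X]) :
    Nat.card {p : (Fin k → F[X]) × (Fin l → F[X]) //
      (∀ i, (p.1 i).Monic ∧ (p.1 i).natDegree = x i) ∧
      (∀ j, (p.2 j).Monic ∧ (p.2 j).natDegree = y j) ∧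
      (∏ i, p.1 i) + h = ∏ j, p.2 j} = NS x y h := by
  classical
  unfold NS
  refine Nat.subtype_card _ fun p => ?_
  simp only [Tup, Finset.mem_filter, Finset.mem_product, Fintype.mem_piFinset, mem_Mn, and_assoc]

theorem finOf (hPT2 : StPT2) (hFNE : StFNE) (hSSP : StSSP) (F : Type) [Field F] [Fintype F]
    (k l : ℕ) (hk : 1 ≤ k) (hl : 1 ≤ l) (h : F[X]) (hh : h ≠ 0) :
    ∃ S : ℝ, 0 < S ∧
      HasSum (fun i : ℕ => ∑ r ∈ Mn F i, Gk (k - 1) r * Gk (l - 1) r *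
        ((Fintype.card F : ℝ) ^ (2 * i))⁻¹ * (cram r h : ℝ)) S ∧
      (∀ ε : ℝ, 0 < ε → ∃ δ : ℝ, 0 < δ ∧ ∃ n0 : ℕ, ∀ n : ℕ, n0 ≤ n →
        ∀ (x : Fin k → ℕ) (y : Fin l → ℕ), ∑ i, x i = n → ∑ j, y j = n →
        (∀ i, ε * n ≤ x i) → (∀ j, ε * n ≤ y j) →
        ((∃ i, (1 / 2 + ε) * n ≤ x i) ∨ (∃ j, (1 / 2 + ε) * n ≤ y j) ∨
          (∃ i j j', j ≠ j' ∧ 3 / 2 * ((n : ℝ) - x i) + ε * n ≤ (y j : ℝ) + y j') ∨
          (∃ j i i', i ≠ i' ∧ 3 / 2 * ((n : ℝ) - y j) + ε * n ≤ (x i : ℝ) + x i')) →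
        |(Nat.card {p : (Fin k → F[X]) × (Fin l → F[X]) //
            (∀ i, (p.1 i).Monic ∧ (p.1 i).natDegree = x i) ∧
            (∀ j, (p.2 j).Monic ∧ (p.2 j).natDegree = y j) ∧
            (∏ i, p.1 i) + h = ∏ j, p.2 j} : ℝ) - S * (Fintype.card F : ℝ) ^ n| ≤
          (Fintype.card F : ℝ) ^ ((1 - δ) * n)) ∧
      (∀ η : ℝ, 0 < η → ∃ n0 : ℕ, ∀ n : ℕ, n0 ≤ n →
        (1 - (1 - (k : ℝ) / 2 ^ (k - 1)) * (1 - (l : ℝ) / 2 ^ (l - 1)) - η) *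
          (S * (Fintype.card F : ℝ) ^ n * (n : ℝ) ^ (k + l - 2) /
            ((k - 1).factorial * (l - 1).factorial)) ≤
          ((∑ f ∈ Mn F n, dk k f * dk l (f + h) : ℕ) : ℝ)) ∧
      (k = 3 → l = 3 → ∃ n0 : ℕ, ∀ n : ℕ, n0 ≤ n →
        24 / 25 * (S * (Fintype.card F : ℝ) ^ n * (n : ℝ) ^ 4 / 4) ≤
          ((∑ f ∈ Mn F n, dk 3 f * dk 3 (f + h) : ℕ) : ℝ)) := by
  obtain ⟨k, rfl⟩ : ∃ k', k = k' + 1 := ⟨k - 1, by omega⟩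
  obtain ⟨l, rfl⟩ : ∃ l', l = l' + 1 := ⟨l - 1, by omega⟩
  obtain ⟨c, hc, hcs⟩ := hSSP F k l
  obtain ⟨hs, hle⟩ := hcs h hh
  refine ⟨∑' i : ℕ, Gs k l h i, lt_of_lt_of_le hc hle, hs.hasSum, ?_, ?_, ?_⟩
  · intro ε hε
    obtain ⟨δ, n0, hδ, H⟩ := hPT2 F k l h ε hh hε
    refine ⟨δ, hδ, n0, ?_⟩
    intro n hn x y hx hy hxε hyε hg
    rw [NS_eq, mul_comm]
    exact H n x y hn hx hy ⟨hxε, hyε, hg⟩
  · intro η hη
    obtain ⟨n0, H⟩ := (hFNE F h hh).1 k l η hη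
    refine ⟨n0, fun n hn => ?_⟩
    have := H n hn
    have e1 : ((k + 1 : ℕ) : ℝ) = (k : ℝ) + 1 := by push_cast; ring
    have e2 : ((l + 1 : ℕ) : ℝ) = (l : ℝ) + 1 := by push_cast; ring
    rw [e1, e2]
    simp only [Nat.add_sub_cancel]
    rw [show k + 1 + (l + 1) - 2 = k + l by omega]
    exact this
  · intro hk3 hl3
    have hk2 : k = 2 := by omega
    have hl2 : l = 2 := by omega
    subst hk2
    subst hl2
    obtain ⟨n0, H⟩ := (hFNE F h hh).2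
    exact ⟨n0, fun n hn => H n hn⟩

end Pool.Agent.Helper15.EP
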