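import Pool.Agent.Helper68.EP.St1
import Pool.Agent.Helper84.RL.M_LFM

/-!
# Project EP (MP_cb927e_an), module ECS: summation over the cells
-/

set_option autoImplicit false

open MeasureTheory Set Filter Topology
open scoped ENNReal RealInnerProductSpace

namespace Pool.Agent.Helper15.EP

open Pool.Agent.Helper68.EP Pool.Agent.Helper20.RG
open Pool.Agent.Helper20.RL (RQ Rich BM Fml)
open Pool.Agent.Helper84.RL (LFM_W LFM_W_eq LFM_W_union LFM_W_disj LFM_W_meas)
open Pool.Agent.Helper68.LM (Pl)

theorem hECS (hLGR : Pool.Agent.Helper20.RL.StLGR) : StECS := by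
  intro F s θ V X Y A B c hV hcell
  have hc : ∀ d, volume (X ∩ LFM_W s V A B d) ≤ c * volume (Y ∩ LFM_W s V A B d) := by
    intro d
    rcases (LFM_W s V A B d).eq_empty_or_nonempty with h | ⟨z, hz⟩
    · rw [h]
      simp
    · rw [LFM_W_eq hV d hz]
      have h1 := hcell z hz.1
      rw [hz.2.1, hz.2.2.1] at h1
      exact h1
  have hmeas : ∀ d, MeasurableSet (LFM_W s V A B d) := fun d => LFM_W_meas hLGR hV d
  have hY : ∑' d, volume (Y ∩ LFM_W s V A B d) = volume (Y ∩ V) := by
    have h1 := measure_iUnion (μ := volume.restrict Y) (LFM_W_disj s V A B) hmeas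
    rw [LFM_W_union] at h1
    have hVm : MeasurableSet V := by
      rw [← LFM_W_union s V A B]
      exact MeasurableSet.iUnion hmeas
    rw [Measure.restrict_apply hVm] at h1
    rw [inter_comm Y V, h1]
    refine tsum_congr fun d => ?_
    rw [Measure.restrict_apply (hmeas d), inter_comm]
  calc volume (X ∩ V) = volume (⋃ d, X ∩ LFM_W s V A B d) := by
        rw [← inter_iUnion, LFM_W_union]
    _ ≤ ∑' d, volume (X ∩ LFM_W s V A B d) := measure_iUnion_le _
    _ ≤ ∑' d, c * volume (Y ∩ LFM_W s V A B d) := ENNReal.tsum_le_tsum hc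
    _ = c * ∑' d, volume (Y ∩ LFM_W s V A B d) := ENNReal.tsum_mul_left
    _ = c * volume (Y ∩ V) := by rw [hY]

end Pool.Agent.Helper15.EP
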