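import Pool.Agent.Helper61.EP.StL

/-!
# Project EP (MP_cb927e_an), part L, module LMI: the multiplier bound for all classes
-/

set_option autoImplicit false

open MeasureTheory Set Filter Topology
open scoped ENNReal RealInnerProductSpace

namespace Pool.Agent.Helper15.EPL

open Pool.Agent.Helper61.EPL Pool.Agent.Helper20.RG Pool.Agent.Helper68.EP
open Pool.Agent.Helper20.RL (RQ Rich BM Fml Hit)
open Pool.Agent.Helper61.EP (trS Ex2 Yc Zc Ec am cutf)
open Pool.Agent.Helper68.LM (Pl BB Bd Av HL ft fm DQ)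

/-- Powers of `r ≤ 1/2` bounded by `y`: their sum is at most `2 y`. -/
theorem geo_LMI (r : ℝ) (hr0 : 0 ≤ r) (hr1 : r ≤ 1 / 2) (S : Finset ℕ) :
    ∀ y : ℝ, 0 ≤ y → (∀ u ∈ S, r ^ u ≤ y) → ∑ u ∈ S, r ^ u ≤ 2 * y := by
  induction S using Finset.induction_on_min with
  | empty => intro y hy _; simpa using hy
  | insert a S ha ih =>
    intro y hy h
    have hna : a ∉ S := fun hh => lt_irrefl a (ha a hh)
    rw [Finset.sum_insert hna]
    have h1 : r ^ a ≤ y := h a (Finset.mem_insert_self a S)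
    have h0 : 0 ≤ r ^ a := pow_nonneg hr0 a
    have h2 := ih (r ^ a / 2) (by linarith) (by
      intro u hu
      have h3 : a + 1 ≤ u := ha u hu
      have h4 : r ^ u ≤ r ^ (a + 1) := pow_le_pow_of_le_one hr0 (by linarith) h3
      rw [pow_succ] at h4
      nlinarith)
    linarith

/-- `∑ (u+1)/2^u ≤ 4`. -/
theorem lin_LMI (n : ℕ) : ∑ u ∈ Finset.range n, ((u : ℝ) + 1) * (1 / 2) ^ u =
    4 - (2 * n + 4) * (1 / 2) ^ n := by
  induction n with
  | zero => simp
  | succ n ih =>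
    rw [Finset.sum_range_succ, ih, pow_succ]
    push_cast
    ring

/-- Module LMI. -/
theorem hLMI (hGPG : Pool.Agent.Helper68.EP.StGPG) (hLM2 : Pool.Agent.Helper61.EPL.StLM2) :
    Pool.Agent.Helper61.EPL.StLMI := by
  intro A p hA hp
  obtain ⟨C, hC1, hC⟩ := hLM2
  have hC0 : 0 < C := by linarith
  refine ⟨C * (2 * A + 4), by nlinarith, ?_⟩
  intro φ τ c hG hGap
  have hp0 : 0 < p := by linarith
  have hgap : Gap (A ^ (1 / p)) p τ := hGPG τ A p hA hp0 hGap
  have hA1 : 0 < A ^ (1 / p) := Real.rpow_pos_of_pos hA _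
  -- the ratio
  set r : ℝ := (2 : ℝ) ^ (-p) with hr
  have hr0 : 0 < r := Real.rpow_pos_of_pos (by norm_num) _
  have hr1 : r ≤ 1 / 2 := by
    have h1 : (2 : ℝ) ^ (-p) ≤ (2 : ℝ) ^ (-1 : ℝ) :=
      Real.rpow_le_rpow_of_exponent_le (by norm_num) (by linarith)
    have h2 : (2 : ℝ) ^ (-1 : ℝ) = 1 / 2 := by rw [Real.rpow_neg_one]; norm_num
    rw [h2] at h1
    exact h1
  have hrp : ∀ u : ℕ, (2 : ℝ) ^ (-(p * u)) = r ^ u := by
    intro u
    rw [hr, ← Real.rpow_natCast, ← Real.rpow_mul (by norm_num)]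
    congr 1
    ring
  have hzp : ∀ u : ℕ, ((2 : ℝ) ^ (-(u : ℤ))) ^ p = r ^ u := by
    intro u
    rw [← hrp, ← Real.rpow_intCast, ← Real.rpow_mul (by norm_num)]
    congr 1
    push_cast
    ring
  have hx0 : ∀ (θ : ℝ) (i : ℕ), 0 ≤ elt τ θ i := fun θ i => ENNReal.toReal_nonneg
  have hxu : ∀ (θ : ℝ) (i u : ℕ), (2 : ℝ) ^ (-(u : ℤ)) ≤ elt τ θ i → r ^ u ≤ elt τ θ i ^ p := by
    intro θ i u h
    rw [← hzp u]
    exact Real.rpow_le_rpow (by positivity) h hp0.le
  have hex : ∀ (θ : ℝ) (u : ℕ), ∃ n : ℕ, elt τ θ (n + 1) < (2 : ℝ) ^ (-(u : ℤ)) := by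
    intro θ u
    by_contra hne
    push Not at hne
    obtain ⟨n, hn⟩ := exists_nat_gt (A / r ^ u)
    have h1 := hGap θ n
    have h2 : ∑ i ∈ Finset.range n, r ^ u ≤ ∑ i ∈ Finset.range n, elt τ θ (i + 1) ^ p :=
      Finset.sum_le_sum fun i _ => hxu θ (i + 1) u (hne i)
    rw [Finset.sum_const, Finset.card_range, nsmul_eq_mul] at h2
    have h3 : 0 < r ^ u := by positivity
    rw [div_lt_iff₀ h3] at hn
    linarith
  classical
  refine ⟨?_, ?_⟩
  · intro u ξ hu hξ
    obtain ⟨n, hn⟩ := hex (-(ξ 0) / ξ 1) u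
    have h1 := (hC φ τ (A ^ (1 / p)) p c hG hgap hA1 hp0 u n ξ hu hξ hn).1
    have h2 : C ≤ C * (2 * A + 4) := by nlinarith
    linarith
  · intro U ξ hξ
    set θ : ℝ := -(ξ 0) / ξ 1 with hθ
    -- the least index
    let nn : ℕ → ℕ := fun u => Nat.find (hex θ u)
    have hn1 : ∀ u, elt τ θ (nn u + 1) < (2 : ℝ) ^ (-(u : ℤ)) := fun u => Nat.find_spec (hex θ u)
    have hn2 : ∀ u i, i < nn u → (2 : ℝ) ^ (-(u : ℤ)) ≤ elt τ θ (i + 1) := fun u i hi =>
      not_lt.mp (Nat.find_min (hex θ u) hi)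
    -- first: exchange and LM2
    have hE1 : ∑' k : ℤ, ∑ u ∈ Finset.Icc 2 U,
        ENNReal.ofReal ((2 : ℝ) ^ (-(p * u)) * am c φ τ u ((2 : ℝ) ^ k • ξ)) =
        ∑ u ∈ Finset.Icc 2 U, ∑' k : ℤ,
        ENNReal.ofReal ((2 : ℝ) ^ (-(p * u)) * am c φ τ u ((2 : ℝ) ^ k • ξ)) :=
      Summable.tsum_finsetSum (fun _ _ => ENNReal.summable)
    rw [hE1]
    have hE2 : ∀ u ∈ Finset.Icc 2 U, ∑' k : ℤ,
        ENNReal.ofReal ((2 : ℝ) ^ (-(p * u)) * am c φ τ u ((2 : ℝ) ^ k • ξ)) ≤
        ENNReal.ofReal (r ^ u * (C * (nn u + u + 1))) := by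
      intro u hu
      have hu2 : 2 ≤ u := (Finset.mem_Icc.mp hu).1
      have h1 := (hC φ τ (A ^ (1 / p)) p c hG hgap hA1 hp0 u (nn u) ξ hu2 hξ (hn1 u)).2
      have h2 : ∀ k : ℤ, ENNReal.ofReal ((2 : ℝ) ^ (-(p * u)) * am c φ τ u ((2 : ℝ) ^ k • ξ)) =
          ENNReal.ofReal (r ^ u) * ENNReal.ofReal (am c φ τ u ((2 : ℝ) ^ k • ξ)) := by
        intro k
        rw [hrp u, ENNReal.ofReal_mul (by positivity)]
      simp_rw [h2]
      rw [ENNReal.tsum_mul_left, ENNReal.ofReal_mul (by positivity)]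
      gcongr
    refine (Finset.sum_le_sum hE2).trans ?_
    rw [← ENNReal.ofReal_sum_of_nonneg (fun u _ => by positivity)]
    apply ENNReal.ofReal_le_ofReal
    -- real numbers
    have hS1 : ∑ u ∈ Finset.Icc 2 U, r ^ u * (C * ((nn u : ℝ) + u + 1)) =
        C * (∑ u ∈ Finset.Icc 2 U, r ^ u * nn u + ∑ u ∈ Finset.Icc 2 U, r ^ u * ((u : ℝ) + 1)) := by
      rw [← Finset.sum_add_distrib, Finset.mul_sum]
      exact Finset.sum_congr rfl fun u _ => by ring
    have hS2 : ∑ u ∈ Finset.Icc 2 U, r ^ u * ((u : ℝ) + 1) ≤ 4 := by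
      calc ∑ u ∈ Finset.Icc 2 U, r ^ u * ((u : ℝ) + 1)
          ≤ ∑ u ∈ Finset.range (U + 1), r ^ u * ((u : ℝ) + 1) := by
            apply Finset.sum_le_sum_of_subset_of_nonneg
            · intro u hu
              rw [Finset.mem_Icc] at hu
              rw [Finset.mem_range]
              omega
            · intro u _ _
              positivity
        _ ≤ ∑ u ∈ Finset.range (U + 1), ((u : ℝ) + 1) * (1 / 2) ^ u := by
            apply Finset.sum_le_sum
            intro u _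
            have h1 : r ^ u ≤ (1 / 2) ^ u := pow_le_pow_left₀ hr0.le hr1 u
            have h2 : (0 : ℝ) ≤ (u : ℝ) + 1 := by positivity
            nlinarith
        _ ≤ 4 := by
            rw [lin_LMI]
            have : 0 ≤ (2 * ((U + 1 : ℕ) : ℝ) + 4) * (1 / 2) ^ (U + 1) := by positivity
            linarith
    have hS3 : ∑ u ∈ Finset.Icc 2 U, r ^ u * nn u ≤ 2 * A := by
      set N : ℕ := (Finset.Icc 2 U).sup nn with hN
      have h1 : ∀ u ∈ Finset.Icc 2 U, r ^ u * nn u ≤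
          ∑ i ∈ Finset.range N, if r ^ u ≤ elt τ θ (i + 1) ^ p then r ^ u else 0 := by
        intro u hu
        have hle : nn u ≤ N := Finset.le_sup (f := nn) hu
        calc r ^ u * nn u = ∑ i ∈ Finset.range (nn u), r ^ u := by
              rw [Finset.sum_const, Finset.card_range, nsmul_eq_mul]
              ring
          _ = ∑ i ∈ Finset.range (nn u), if r ^ u ≤ elt τ θ (i + 1) ^ p then r ^ u else 0 := by
              apply Finset.sum_congr rfl
              intro i hi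
              rw [if_pos (hxu θ (i + 1) u (hn2 u i (Finset.mem_range.mp hi)))]
          _ ≤ _ := by
              apply Finset.sum_le_sum_of_subset_of_nonneg
              · exact Finset.range_mono hle
              · intro i _ _
                split_ifs
                · positivity
                · exact le_rfl
      calc ∑ u ∈ Finset.Icc 2 U, r ^ u * nn u
          ≤ ∑ u ∈ Finset.Icc 2 U, ∑ i ∈ Finset.range N,
              (if r ^ u ≤ elt τ θ (i + 1) ^ p then r ^ u else 0) := Finset.sum_le_sum h1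
        _ = ∑ i ∈ Finset.range N, ∑ u ∈ Finset.Icc 2 U,
              (if r ^ u ≤ elt τ θ (i + 1) ^ p then r ^ u else 0) := Finset.sum_comm
        _ ≤ ∑ i ∈ Finset.range N, 2 * elt τ θ (i + 1) ^ p := by
            apply Finset.sum_le_sum
            intro i _
            rw [← Finset.sum_filter]
            apply geo_LMI r hr0.le hr1
            · exact Real.rpow_nonneg (hx0 θ (i + 1)) p
            · intro u hu
              exact (Finset.mem_filter.mp hu).2
        _ = 2 * ∑ i ∈ Finset.range N, elt τ θ (i + 1) ^ p := by rw [Finset.mul_sum]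
        _ ≤ 2 * A := by
            have := hGap θ N
            linarith
    rw [hS1]
    apply mul_le_mul_of_nonneg_left _ hC0.le
    linarith

end Pool.Agent.Helper15.EPL
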