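import Pool.Agent.Helper68.EP.St5

/-!
# Project EP (MP_cb927e_an), module XVM: levels and `VM`
-/

set_option autoImplicit false

open MeasureTheory Set Filter Topology
open scoped ENNReal RealInnerProductSpace

namespace Pool.Agent.Helper15.EP

open Pool.Agent.Helper68.EP Pool.Agent.Helper20.RG
open Pool.Agent.Helper20.RL (RQ Rich BM Fml)
open Pool.Agent.Helper68.LM (Pl)

theorem xvm_aux {A B C : ℝ≥0∞} (hA : A ≠ ⊤) (h1 : A ≤ B + C) (h2 : 2 * B < A) : A ≤ 2 * C := by
  have h3 : A + A ≤ A + 2 * C := by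
    calc A + A = 2 * A := (two_mul A).symm
      _ ≤ 2 * (B + C) := by gcongr
      _ = 2 * B + 2 * C := mul_add _ _ _
      _ ≤ A + 2 * C := by gcongr
  exact (ENNReal.add_le_add_iff_left hA).1 h3

theorem hXVM (hEFB : StEFB) : StXVM := by
  classical
  intro P Δ u j k θ M E q y hSy hE hq0 hq1 hy hM
  obtain ⟨hV, hl1, hl2⟩ := hy
  refine ⟨hV, ?_⟩
  have hsub : Fo P u k (q0 P u) E ∩ Qc P Δ u j k θ E y ⊆
      (Fo P u k (q + 1) E ∩ Qc P Δ u j k θ E y) ∪
      (Fo P u k (q0 P u) E ∩ Cn P Δ u j k M E ∩ Qc P Δ u j k θ E y) := by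
    rintro z ⟨hz1, hz2⟩
    by_cases hz3 : z ∈ Fo P u k (q + 1) E
    · exact Or.inl ⟨hz3, hz2⟩
    · refine Or.inr ⟨⟨hz1, ?_⟩, hz2⟩
      obtain ⟨q', hq'⟩ : ∃ q', q' = Nat.findGreatest
        (fun r => q0 P u ≤ r ∧ z ∈ Fo P u k r E) q := ⟨_, rfl⟩
      have h1 : q0 P u ≤ q' ∧ z ∈ Fo P u k q' E := by
        rw [hq']
        exact Nat.findGreatest_spec (P := fun r => q0 P u ≤ r ∧ z ∈ Fo P u k r E) hq0
          ⟨le_refl _, hz1⟩
      have h2 : q' ≤ q := by
        rw [hq']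
        exact Nat.findGreatest_le q
      have h3 : z ∉ Fo P u k (q' + 1) E := by
        rcases Nat.lt_or_ge q' q with h | h
        · intro h4
          refine Nat.findGreatest_is_greatest (P := fun r => q0 P u ≤ r ∧ z ∈ Fo P u k r E)
            (n := q) (k := q' + 1) (by rw [← hq']; exact Nat.lt_succ_self _) h
            ⟨h1.1.trans (Nat.le_succ _), h4⟩
        · have : q' = q := le_antisymm h2 h
          rw [this]
          exact hz3
      refine ⟨q', h1.1, h2.trans hq1, ⟨h1.2, h3⟩, hM.trans ?_⟩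
      have hanti : Antitone (Δ.ell (Δ.sl u j)) := antitone_nat_of_succ_le (hSy.mono _)
      have h4 : 2 ^ (q' - 3) ≤ 2 ^ (q - 3) := Nat.pow_le_pow_right (by norm_num) (by omega)
      exact mul_le_mul_of_nonneg_left (hanti h4) (by positivity)
  have hfin : volume (Fo P u k (q0 P u) E ∩ Qc P Δ u j k θ E y) ≠ ⊤ := by
    refine ne_top_of_le_ne_top (hE.2.measure_lt_top (μ := volume)).ne (measure_mono ?_)
    intro z hz
    exact hz.1.1
  exact xvm_aux hfin ((measure_mono hsub).trans (measure_union_le _ _)) hl2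

end Pool.Agent.Helper15.EP
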