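import Pool.Agent.Helper15.FC.St4
import Pool.Agent.Helper15.FC.St5

set_option autoImplicit false

/-!
# Project EP (MP_16cbc0_nt, second hand-in): EVERY fixed shift

`F` is a finite field with `q = qr F` elements.  We count the solutions of
`a_1 ⋯ a_k + h = b_1 ⋯ b_l` in monic polynomials of prescribed degrees, `h ≠ 0` fixed.
Hypotheses in the modules are statements of project FC (all proved) or of this file.
-/

open Polynomial

namespace Pool.Agent.Helper15.EP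

open Pool.Agent.Helper15.FC

noncomputable section

/-! ### definitions -/

/-- the tuples of monic polynomials with degrees `x` -/
def Tup (F : Type) [Field F] [Fintype F] {k : ℕ} (x : Fin k → ℕ) : Finset (Fin k → F[X]) :=
  Fintype.piFinset (fun i => Mn F (x i))

open scoped Classical in
/-- the number of solutions of `a_1 ⋯ a_k + h = b_1 ⋯ b_l` in monic polynomials of degrees `x`, `y` -/
def NS {F : Type} [Field F] [Fintype F] {k l : ℕ} (x : Fin k → ℕ) (y : Fin l → ℕ) (h : F[X]) : ℕ :=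
  ((Tup F x ×ˢ Tup F y).filter (fun p => (∏ i, p.1 i) + h = ∏ j, p.2 j)).card

open scoped Classical in
/-- the number of the `b` in `Tup F y` with `b_1 ⋯ b_l ≡ t mod m` -/
def AP {F : Type} [Field F] [Fintype F] {l : ℕ} (y : Fin l → ℕ) (m t : F[X]) : ℕ :=
  ((Tup F y).filter (fun b => m ∣ (∏ j, b j) - t)).card

/-- the mean of `AP y m (u t)` over the units `u` modulo `m` -/
def AV {F : Type} [Field F] [Fintype F] {l : ℕ} (y : Fin l → ℕ) (m t : F[X]) : ℝ :=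
  (1 / (phi m : ℝ)) * ∑ u ∈ Lc m, (AP y m (u * t) : ℝ)

open scoped Classical in
/-- monic polynomials of degree `≤ n` all of whose prime factors divide `r` -/
def Sml {F : Type} [Field F] [Fintype F] (r : F[X]) (n : ℕ) : Finset F[X] :=
  (Finset.range (n + 1)).biUnion (fun i => Sm r i)

open scoped Classical in
/-- the Kloosterman type sum over the pairs `x, z` with `A x z ≡ t mod m` -/
def KS {F : Type} [Field F] [Fintype F] (m A t : F[X]) (ν1 ν2 : AddChar F[X] ℂ) : ℂ :=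
  ∑ p ∈ (Lw F m.natDegree ×ˢ Lw F m.natDegree).filter (fun p => m ∣ A * p.1 * p.2 - t),
    ν1 p.1 * ν2 p.2

open scoped Classical in
/-- the number of the ` (x, z)`, `x ∈ M_β`, `z ∈ M_γ`, with `A x z ≡ t mod m` -/
def A2 {F : Type} [Field F] [Fintype F] (β γ : ℕ) (m A t : F[X]) : ℕ :=
  ((Mn F β ×ˢ Mn F γ).filter (fun p => m ∣ A * p.1 * p.2 - t)).card

open scoped Classical in
/-- the additive characters modulo `m` that are trivial on the polynomials of degree `< β` -/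
def Oc {F : Type} [Field F] [Fintype F] (m : F[X]) (β : ℕ) : Finset (AddChar F[X] ℂ) :=
  (ACf m).filter (fun ν => ∀ g ∈ Lw F β, ν g = 1)

/-- `Vl e y = (1/phi e) sum over b in Tup F y of c_e(b_1 ⋯ b_l)` -/
def Vl {F : Type} [Field F] [Fintype F] {l : ℕ} (e : F[X]) (y : Fin l → ℕ) : ℝ :=
  (1 / (phi e : ℝ)) * ∑ b ∈ Tup F y, (cram e (∏ j, b j) : ℝ)

open scoped Classical in
/-- the number of the `a` in `Tup F x` with `e | a_1 ⋯ a_k` -/
def Dc {F : Type} [Field F] [Fintype F] {k : ℕ} (e : F[X]) (x : Fin k → ℕ) : ℕ :=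
  ((Tup F x).filter (fun a => e ∣ ∏ i, a i)).card

/-- the good pairs of degree patterns -/
def Good (ε : ℝ) (n : ℕ) {k l : ℕ} (x : Fin k → ℕ) (y : Fin l → ℕ) : Prop :=
  (∀ i, ε * n ≤ x i) ∧ (∀ j, ε * n ≤ y j) ∧
    ((∃ i, (1 / 2 + ε) * n ≤ x i) ∨ (∃ j, (1 / 2 + ε) * n ≤ y j) ∨
      (∃ i j j', j ≠ j' ∧ 3 / 2 * ((n : ℝ) - x i) + ε * n ≤ (y j : ℝ) + y j') ∨
      (∃ j i i', i ≠ i' ∧ 3 / 2 * ((n : ℝ) - y j) + ε * n ≤ (x i : ℝ) + x i'))

/-! ### reduction to congruences -/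

/-- **RDN**.  Proof.  For a solution ` (a, b)` put `a' = a o i0.succAbove` and `m = ∏ a'`, monic of
degree `n - x i0`; then `m | ∏ b - h`.  Conversely, given `a' ∈ Tup` and `b ∈ Tup F y` with
`m = ∏ a'` dividing `∏ b - h`: `∏ b - h` is monic of degree `n` (`deg h < n`), so
`a_(i0) = (∏ b - h)/m` is monic of degree `x i0` and uniquely determined
(`Fin.prod_univ_succAbove`, `Fin.insertNth`). -/
def StRDN : Prop := ∀ (F : Type) [Field F] [Fintype F] (k l n : ℕ) (x : Fin (k + 1) → ℕ)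
  (y : Fin l → ℕ) (i0 : Fin (k + 1)) (h : F[X]), ∑ i, x i = n → ∑ j, y j = n → h.degree < n →
  NS x y h = ∑ a ∈ Tup F (fun i : Fin k => x (i0.succAbove i)), AP y (∏ i, a i) h

/-- **CRR**.  Proof.  For `f` monic of degree `n` the tuples counted by `dk k f` are the disjoint union
over the degree patterns `x` (`Finset.Nat.mem_antidiagonalTuple`: `∑ x i = n`) of the `a ∈ Tup F x`
with `∏ a = f` (the degree of a product of monic polynomials is the sum of the degrees).  `f + h` is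
monic of degree `n`.  So `dk k f * dk l (f + h)` counts the pairs ` (a, b)` with `∏ a = f`,
`∏ b = f + h`; sum over `f ∈ M_n`. -/
def StCRR : Prop := ∀ (F : Type) [Field F] [Fintype F] (k l n : ℕ) (h : F[X]), h.degree < n →
  Corr F k l n h = ∑ x ∈ Finset.Nat.antidiagonalTuple k n,
    ∑ y ∈ Finset.Nat.antidiagonalTuple l n, NS x y h

/-! ### sums over units: characters modulo `m` (large factor) -/

/-- **UCT** (number of solutions of a linear congruence).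
Proof.  If there is no solution this is clear.  Let `x0` be one.  `x ↦ (x - x0) %ₘ m` maps the solutions
injectively into the `z ∈ Lw(deg m)` with `m | A z`, i.e. ` (m/g) | z`, `g = gcd(A, m)` monic; their number
is `q^(deg g)`.  `g` divides `A x0 - u t` and `A x0`, so `g | u t`, and `g | t` since `g | m` is prime to `u`;
so `deg g ≤ deg t` (`t ≠ 0`). -/
def StUCT : Prop := ∀ (F : Type) [Field F] [Fintype F] (m A t u : F[X]), m.Monic → t ≠ 0 →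
  IsCoprime u m → ∀ S : Finset F[X], (∀ x ∈ S, x ∈ Lw F m.natDegree ∧ m ∣ A * x - u * t) →
  (S.card : ℝ) ≤ qr F ^ t.natDegree

/-- **UPS** (expansion of functions on the units modulo `r`, sup bound; compare with `StUPR` and its
proof `Pool.Agent.Helper98.FC.hUPR`).
Proof.  `c χ = (1/phi r) sum_(x ∈ Lc r) w(x) conj χ(x)`; ORR; `‖χ(x)‖ ≤ 1`. -/
def StUPS : Prop := ∀ (F : Type) [Field F] [Fintype F] (r : F[X]) (w : F[X] → ℂ), r.Monic →
  (∀ f g : F[X], r ∣ f - g → w f = w g) →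
  ∃ c : MulChar (AdjoinRoot r) ℂ → ℂ,
    (∀ f : F[X], IsCoprime f r → w f = ∑ χ ∈ allF (MulChar (AdjoinRoot r) ℂ),
      c χ * χ (AdjoinRoot.mk r f)) ∧
    (∀ χ, (phi r : ℝ) * ‖c χ‖ ≤ ∑ x ∈ Lc r, ‖w x‖) ∧
    (phi r : ℂ) * c 1 = ∑ x ∈ Lc r, w x

/-- **LDB** (Lindeloef bound; hypotheses MAJ, LOG, CMH, ZS, RH, IRB of FC).
Proof.  `C0` from MAJ.  Choose `K ≥ 1` with `C0/K ≤ δ log q`, and `bb` from MAJ.  `Χ = Hk r 0 χ 1` is CM (CMH), has
zero sums in degrees `≥ D = deg r + 0` (ZS with `N = 0`, `χ ≠ 1`), and satisfies RH, so by LOG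
`‖Lp(u)‖ ≤ exp(C0 D/K + Re sum_(1≤j≤2K) (bb_j/j) Psi_j u^j)`.  Here `|bb_j| ≤ C0` (MajOK), `‖u‖ ≤ 1` and
`‖Psi_j‖ ≤ sum_(d|j) d |Ir_d| ≤ sum_(d | j) q^d ≤ j q^j` (IRB, `‖Χ‖ ≤ 1`), so the sum is bounded by a
constant depending only on `F` and `K`, and `exp(C0 D/K) ≤ q^(δ D)`. -/
def StLDB : Prop := ∀ (F : Type) [Field F] [Fintype F] (δ : ℝ), 0 < δ → ∃ C : ℝ, 1 ≤ C ∧
  ∀ (r : F[X]) (χ : MulChar (AdjoinRoot r) ℂ) (u : ℂ), r.Monic → χ ≠ 1 → qr F * ‖u‖ ^ 2 = 1 →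
    ‖(Lp (Hk r 0 χ 1) r.natDegree).eval u‖ ≤ C * qr F ^ (δ * r.natDegree)

/-- **CSB** (character sums over `M_i`; hypotheses LDB and ZS, CMH, AVT of FC).
Proof.  For monic `f`: `χ(mk f) = Hk r 0 χ 1 f` (`f.reverse` has constant coefficient 1, so its class in
`TN F 0 = F[X]/(X^1)` is the unit 1; compare with the proof of `StSKB`).  So the sum is
`A_i(Χ)`, `Χ = Hk r 0 χ 1`.  It vanishes for `i ≥ deg r` (ZS, `N = 0`).  For `i < deg r = T` it is the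
coefficient of index `i` of `G = Lp Χ T`, `natDegree G < T`.  AVT with `ρ = (sqrt q)^(-1)`:
`‖G_i‖^2 ρ^(2i) ≤ (1/T) sum_j ‖G(z_j)‖^2 ≤ (C q^(δ T))^2` by LDB (`q ‖z_j‖^2 = 1`). -/
def StCSB : Prop := ∀ (F : Type) [Field F] [Fintype F] (δ : ℝ), 0 < δ → ∃ C : ℝ, 1 ≤ C ∧
  ∀ (r : F[X]) (χ : MulChar (AdjoinRoot r) ℂ) (i : ℕ), r.Monic → χ ≠ 1 →
    ‖∑ f ∈ Mn F i, χ (AdjoinRoot.mk r f)‖ ≤
      C * Real.sqrt (qr F) ^ i * qr F ^ (δ * r.natDegree)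

/-- **SPT** (splitting off the `r`-parts in tuples; hypothesis SPL of FC, or directly).
Proof.  Every monic `f` of degree `n` is uniquely `f = f0 f1` with `f0 ∈ Sml r n` and
`f1 ∈ Cp r (n - deg f0)` (this is SPL applied to indicator functions).  Apply it to every coordinate:
` (b0, b1) ↦ (j ↦ b0 j * b1 j)` is a bijection onto `Tup F y` (`Finset.sum_sigma'`,
`Finset.sum_bij`; or induction on `l`). -/
def StSPT : Prop := ∀ (F : Type) [Field F] [Fintype F] (l : ℕ) (y : Fin l → ℕ) (r : F[X])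
  (G : (Fin l → F[X]) → ℂ), r.Monic →
  ∑ b ∈ Tup F y, G b = ∑ b0 ∈ Fintype.piFinset (fun j => Sml r (y j)),
    ∑ b1 ∈ Fintype.piFinset (fun j => Cp r (y j - (b0 j).natDegree)), G (fun j => b0 j * b1 j)

/-- **APE** (hypotheses SPT, UPS, UCT, CSB and KAP, DKR, ORR, PHI of FC).
Proof.  For `f ∈ F[X]` let `w(f) = [m | f - t] - (1/phi m) sum_(u∈Lc m) [m | f - u t]`; it depends only on
`f` modulo `m`, and `AP - AV = sum_(b∈Tup y) w(∏ b)`.  By SPT this is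
`sum_(b0) sum_(b1) w(B0 B1)`, `B0 = ∏ b0_j`, `B1 = ∏ b1_j` (prime to `m`).  Fix `b0` and apply UPS to
`w(B0 ·)`.  (1) For a unit `u`: `sum_(x∈Lc m) [m | B0 x - u t] = sum_(x∈Lc m) [m | B0 x - t]`
(substitute `x ↦ u x mod m`, a bijection of `Lc m`), so `sum_(x∈Lc m) w(B0 x) = 0`, i.e. `c 1 = 0`.
(2) `sum_(x∈Lc m) |w(B0 x)| ≤ 2 |{x ∈ Lc m : m | B0 x - t}| ≤ 2 q^(deg t)` (UCT with `u = 1`).
Hence `sum_(b1) w(B0 B1) = sum_(χ≠1) c χ ∏_j (sum_(f∈Cp m (y_j - deg b0_j)) χ(mk f))`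
(`χ` is multiplicative, `Finset.prod_univ_sum`), and `Cp` may be replaced by `Mn` (`χ` vanishes on the
polynomials not prime to `m`).  CSB with `δ' = δ/(2l+1)`: the product is at most
`C^l q^(l δ' deg m) ∏_j sqrt(q)^(y_j - deg b0_j)`.  The number of `χ` is `phi m` (ORR) and
`|c χ| ≤ 2 q^(deg t)/phi m`.  Finally `sum_(b0) ∏_j sqrt(q)^(-deg b0_j) = ∏_j kap 1 m (y_j)`
(`dk 1 f = 1` by DKR) and `kap 1 m n ≤ C' q^(δ' deg m)` (KAP). -/
def StAPE : Prop := ∀ (F : Type) [Field F] [Fintype F] (l : ℕ) (δ : ℝ), 0 < δ → ∃ C : ℝ, 1 ≤ C ∧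
  ∀ (y : Fin l → ℕ) (m t : F[X]), m.Monic → t ≠ 0 →
    |(AP y m t : ℝ) - AV y m t| ≤ C * qr F ^ t.natDegree * Real.sqrt (qr F) ^ (∑ j, y j) *
      qr F ^ (δ * m.natDegree)

/-- **TE1** (hypothesis APE).  Proof.  `∏ a` is monic of degree `μ = ∑ x i` and `|Tup F x| = q^μ`. -/
def StTE1 : Prop := ∀ (F : Type) [Field F] [Fintype F] (k l : ℕ) (δ : ℝ), 0 < δ →
  ∃ C : ℝ, 1 ≤ C ∧ ∀ (x : Fin k → ℕ) (y : Fin l → ℕ) (h : F[X]), h ≠ 0 →
  ∑ a ∈ Tup F x, |(AP y (∏ i, a i) h : ℝ) - AV y (∏ i, a i) h| ≤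
    C * qr F ^ h.natDegree * qr F ^ ((1 + δ) * ((∑ i, x i : ℕ) : ℝ)) *
      Real.sqrt (qr F) ^ (∑ j, y j)

/-! ### Kloosterman sums modulo `m` (two large factors) -/

open scoped Classical in
/-- **KLP** (prime modulus; hypothesis WKL of FC).
Proof.  `d = deg P`.  If `P | A` there is no pair in the sum (otherwise `P | t`), `KS = 0`.  Let `P ∤ A`.
`K = AdjoinRoot P` is a finite field with `q^d` elements, `Lw F d` represents its elements once each.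
The pairs are `x ≠ 0`, `z = t/(A x)` in `K`.  If `ν1 = ν2 = 1`: `KS` is their number, `≤ q^d`.
Otherwise let `ψ ≠ 1` be an additive character of `K` (one of the two); the `ν_i` are additive
characters of `K` (trivial on multiples of `P`), so `ν_i(x) = ψ(c_i x)` for some `c_i ∈ K`
(`K` finite, `ψ` primitive: `AddChar.IsPrimitive`, `c ↦ ψ(c ·)` is injective, hence surjective), not
both zero, and `KS = sum_(x≠0) ψ(c_1 x + (c_2 t/A) x^(-1))`: WKL for the field `K`,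
`sqrt|K| = sqrt(q)^d`. -/
def StKLP : Prop := ∀ (F : Type) [Field F] [Fintype F] (P A t : F[X]) (ν1 ν2 : AddChar F[X] ℂ),
  P.Monic → Irreducible P → ¬ P ∣ t → ν1 ∈ AC P → ν2 ∈ AC P →
  ‖KS P A t ν1 ν2‖ ≤ 2 * Real.sqrt (qr F) ^ P.natDegree *
    (if ν1 = 1 ∧ ν2 = 1 then Real.sqrt (qr F) ^ P.natDegree else 1)

/-- **KCR** (multiplicativity).
Proof.  Bezout: `e ≡ 1 mod r`, `e ≡ 0 mod s`, `e' = 1 - e`.  `α_i(f) = ν_i(e f)` (trivial on the multiples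
of `r`, since `e r` is a multiple of `r s`), `β_i(f) = ν_i(e' f)`; `ν_i = α_i β_i`.  `x ↦ (x %ₘ r, x %ₘ s)` is a
bijection `Lw(deg r + deg s) → Lw(deg r) x Lw(deg s)`, `r s | A x z - t` iff both `r` and `s` divide it, and
`ν_i(x) = α_i(x %ₘ r) β_i(x %ₘ s)`. -/
def StKCR : Prop := ∀ (F : Type) [Field F] [Fintype F] (r s A t : F[X]) (ν1 ν2 : AddChar F[X] ℂ),
  r.Monic → s.Monic → IsCoprime r s → ν1 ∈ AC (r * s) → ν2 ∈ AC (r * s) →
  ∃ α1 α2 β1 β2 : AddChar F[X] ℂ, α1 ∈ AC r ∧ α2 ∈ AC r ∧ β1 ∈ AC s ∧ β2 ∈ AC s ∧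
    ν1 = α1 * β1 ∧ ν2 = α2 * β2 ∧ KS (r * s) A t ν1 ν2 = KS r A t α1 α2 * KS s A t β1 β2

open scoped Classical in
/-- **KBD** (the general bound; hypotheses KLP, KCR, UCT and DVM of FC).
Proof.  Induction on `m1` (squarefree: `m1 = 1` or `m1 = P m1'`, `P` monic irreducible, `P ∤ m1'`; e.g.
induction on the degree).
`m1 = 1`: `‖KS‖` is at most the number of pairs `x, z ∈ Lw(deg m2)` with `m2 | (A x) z - u t`, i.e.
`≤ q^(deg m2) q^(deg t)` (UCT with `A x`), and the sum over `Dv 1 = {1}` is 1.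
`m1 = P m1'`: KCR for `r = P`, `s = m1' m2`: `KS = KS(P; α) KS(m1' m2; β)`.  KLP (`P ∤ u t`) bounds the first
factor by `2 sqrt(q)^(deg P)` times `sqrt(q)^(deg P)` or 1, induction the second.
`tau(P m1') = 2 tau(m1')` and `Dv (P m1')` consists of the `d` and the `P d`, `d ∈ Dv m1'` (DVM).  If
`β_i ∈ AC (m1'/d * m2)` then `ν_i = α_i β_i ∈ AC (P m1'/d * m2) = AC (m1/d * m2)`: this gives the terms `d` if
not both `α_i` are trivial.  If `α1 = α2 = 1` then `ν_i = β_i ∈ AC (m1'/d * m2) = AC (m1/(P d) * m2)`: the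
terms `P d`, `sqrt(q)^(deg P) sqrt(q)^(deg d) = sqrt(q)^(deg(P d))`. -/
def StKBD : Prop := ∀ (F : Type) [Field F] [Fintype F] (m1 m2 A t u : F[X])
  (ν1 ν2 : AddChar F[X] ℂ), m1.Monic → m2.Monic → Squarefree m1 → IsCoprime m1 m2 →
  IsCoprime m1 t → t ≠ 0 → IsCoprime u (m1 * m2) → ν1 ∈ AC (m1 * m2) → ν2 ∈ AC (m1 * m2) →
  ‖KS (m1 * m2) A (u * t) ν1 ν2‖ ≤ tau m1 * qr F ^ t.natDegree *
    Real.sqrt (qr F) ^ m1.natDegree * qr F ^ m2.natDegree *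
    ∑ d ∈ Dv m1, (if ν1 ∈ AC (m1 / d * m2) ∧ ν2 ∈ AC (m1 / d * m2) then
      Real.sqrt (qr F) ^ d.natDegree else 0)

/-- **KC1** (completion; hypotheses ACF, NTS of FC).
Proof.  For `ρ ∈ Lw(deg m)`: `q^(deg m) |{x ∈ M_β : m | x - ρ}| = sum_(ν∈ACf m) sum_(x∈M_β) ν(x - ρ)` (ACF)
`= q^β sum_(ν∈Oc m β) ν(X^β - ρ)` (`x = X^β + g`, `g ∈ Lw β`; NTS for the `ν` not trivial on `Lw β`), and
`ν(X^β - ρ) = ν(X^β) ν^(-1)(ρ)`.  The condition `m | A x z - t` depends only on the residues `ρ1, ρ2` of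
`x, z`: `A2 = sum_(ρ1,ρ2∈Lw(deg m), m | A ρ1 ρ2 - t) |{x ≡ ρ1}| |{z ≡ ρ2}|`. -/
def StKC1 : Prop := ∀ (F : Type) [Field F] [Fintype F] (m A t : F[X]) (β γ : ℕ), m.Monic →
  (Fintype.card F : ℂ) ^ (2 * m.natDegree) * (A2 β γ m A t : ℂ) =
    (Fintype.card F : ℂ) ^ (β + γ) * ∑ ν1 ∈ Oc m β, ∑ ν2 ∈ Oc m γ,
      ν1 (X ^ β) * ν2 (X ^ γ) * KS m A t ν1⁻¹ ν2⁻¹

/-- **KC2** (a trivial character).
Proof.  If `ν1 = 1`: `x ↦ (u x) %ₘ m` is a bijection of `Lw(deg m)` (`u` is a unit modulo `m`), and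
`m | A x z - t` iff `m | A (u x) z - u t`; `z` is unchanged.  Symmetrically if `ν2 = 1`. -/
def StKC2 : Prop := ∀ (F : Type) [Field F] [Fintype F] (m A t u : F[X])
  (ν1 ν2 : AddChar F[X] ℂ), m.Monic → IsCoprime u m → (ν1 = 1 ∨ ν2 = 1) →
  KS m A (u * t) ν1 ν2 = KS m A t ν1 ν2

open scoped Classical in
/-- **KC3** (hypotheses ACF, NTS of FC).
Proof.  If `β ≥ deg m`, a `ν` trivial on `Lw β` and on the multiples of `m` is 1: the set is empty.  If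
`β < deg m`: `sum_(ν∈ACf m) sum_(g∈Lw β) ν(g)` is `q^β |Oc m β|` (NTS) and also `q^(deg m)` (ACF: only `g = 0`
is divisible by `m`). -/
def StKC3 : Prop := ∀ (F : Type) [Field F] [Fintype F] (m : F[X]) (β : ℕ), m.Monic →
  (((Oc m β).filter (fun ν => ν ≠ 1)).card : ℝ) * qr F ^ β ≤ qr F ^ m.natDegree

/-- **KCN** (hypotheses KBD, KC1, KC2, KC3 and ACF, PHI of FC).
Proof.  `m = m1 m2`, `μ = deg m`.  KC1 for `t` and for the `u t`, `u ∈ Lc m` (there are `phi m ≥ 1` of them,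
`IsCoprime u m`): the difference is
`q^(β+γ-2μ) sum_(ν1∈Oc m β) sum_(ν2∈Oc m γ) ν1(X^β) ν2(X^γ) (KS_t - (1/phi m) sum_u KS_(u t))`.
The bracket vanishes if `ν1 = 1` or `ν2 = 1` (KC2), and by KBD (with `u = 1` and with `u`) it is at most twice
the bound of KBD for `ν1⁻¹, ν2⁻¹`.  Exchange the sums: for `d ∈ Dv m1` the number of the `ν1 ≠ 1` in `Oc m β`
with `ν1⁻¹ ∈ AC (m1/d * m2)` is the number of `ν ≠ 1` in `Oc (m1/d * m2) β`, `≤ q^(μ - deg d - β)` (KC3; `AC` is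
closed under inverses, `AC (m/d) ⊆ AC m`), the same for `ν2`.  So the total is at most
`2 q^(β+γ-2μ) tau(m1) q^(deg t) sqrt(q)^(deg m1) q^(deg m2) sum_(d∈Dv m1) sqrt(q)^(deg d) q^(2μ-2 deg d-β-γ)`, and
`sqrt(q)^(deg d) q^(-2 deg d) ≤ 1`, `|Dv m1| = tau m1`. -/
def StKCN : Prop := ∀ (F : Type) [Field F] [Fintype F] (m1 m2 A t : F[X]) (β γ : ℕ), m1.Monic →
  m2.Monic → Squarefree m1 → IsCoprime m1 m2 → IsCoprime m1 t → t ≠ 0 →
  |(A2 β γ (m1 * m2) A t : ℝ) - (1 / (phi (m1 * m2) : ℝ)) *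
      ∑ u ∈ Lc (m1 * m2), (A2 β γ (m1 * m2) A (u * t) : ℝ)| ≤
    2 * tau m1 ^ 2 * qr F ^ t.natDegree * Real.sqrt (qr F) ^ m1.natDegree * qr F ^ m2.natDegree

/-- **KPT** (hypothesis KCN).
Proof.  Let `R` be the set of the `c : Fin l → F[X]` with `c j = c j' = 1` and `c i ∈ M_(y i)` for the other
`i` (a `Fintype.piFinset`), `|R| = q^(∑ y - y j - y j')`.  ` (c, x, z) ↦ update (update c j x) j' z` is a bijection
of `R x M_(y j) x M_(y j')` onto `Tup F y`, and the product of the new tuple is ` (∏ c) x z`.  So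
`AP y m t = sum_(c∈R) A2 (y j) (y j') m (∏ c) t`, the same for the `u t` in `AV`; apply KCN. -/
def StKPT : Prop := ∀ (F : Type) [Field F] [Fintype F] (l : ℕ) (y : Fin l → ℕ) (j j' : Fin l)
  (m1 m2 t : F[X]), j ≠ j' → m1.Monic → m2.Monic → Squarefree m1 → IsCoprime m1 m2 →
  IsCoprime m1 t → t ≠ 0 →
  |(AP y (m1 * m2) t : ℝ) - AV y (m1 * m2) t| * qr F ^ (y j + y j') ≤
    qr F ^ (∑ i, y i) * (2 * tau m1 ^ 2 * qr F ^ t.natDegree *
      Real.sqrt (qr F) ^ m1.natDegree * qr F ^ m2.natDegree)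

/-- **KDC** (decomposition of the modulus).
Proof.  `UniqueFactorizationMonoid.induction_on_coprime` or induction on the degree: `m = 1`: all equal
to 1.  `m = P^e`, `e ≥ 1`, `P` monic irreducible: if `e = 1` and `P ∤ t`: `m1 = P`, `a = s = 1`.  If
`e = 2i`: `m1 = 1`, `a = P^i`, `s = 1`.  If `e = 2i+1` and (`i ≥ 1` or `P | t`): `m1 = 1`, `a = P^i`, `s = P`, which
divides `a t`.  Products of coprime `m, m'`: multiply the components; `s` and `s'` are coprime and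
both divide `a a' t`, so `s s'` divides it; `m1 m1'` is squarefree and prime to the rest because `m`, `m'`
are coprime. -/
def StKDC : Prop := ∀ (F : Type) [Field F] [Fintype F] (m t : F[X]), m.Monic → t ≠ 0 →
  ∃ m1 a s : F[X], m1.Monic ∧ a.Monic ∧ s.Monic ∧ m = m1 * (a ^ 2 * s) ∧ Squarefree m1 ∧
    IsCoprime m1 (a ^ 2 * s) ∧ IsCoprime m1 t ∧ s ∣ a * t

/-- **KSM** (mean value; hypothesis TAU of FC).
Proof.  `κ m` is at most the sum over all the triples ` (m1, a, s)` of monic polynomials with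
`m = m1 a^2 s`, `s | a t` of `sqrt(q)^(deg m1) q^(2 deg a + deg s)`.  So the sum over `M_μ` is at most
`sum_(i ≤ μ/2) sum_(a∈M_i) sum_(s∈Dv(a t), 2i + deg s ≤ μ) sum_(m1∈M_(μ-2i-deg s)) sqrt(q)^(deg m1) q^(2i + deg s)`
`= sum_i sum_a sum_s q^((3/2)(μ-2i-deg s)) q^(2i + deg s) ≤ q^(3μ/2) sum_i sum_(a∈M_i) q^(-i) |Dv(a t)|`, and
`|Dv(a t)| = tau(a t')`, `t'` the monic associate of `t`, is `≤ C q^(δ (i + deg t))` (TAU); there are `q^i`
polynomials `a`, and `μ/2 + 1` values of `i ≤ μ/2`: ` (μ/2+1) q^(δ μ/2) ≤ C' q^(δ μ)`. -/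
def StKSM : Prop := ∀ (F : Type) [Field F] [Fintype F] (t : F[X]) (δ : ℝ), t ≠ 0 → 0 < δ →
  ∃ C : ℝ, 1 ≤ C ∧ ∀ (μ : ℕ) (κ : F[X] → ℝ),
  (∀ m ∈ Mn F μ, ∃ m1 a s : F[X], m1.Monic ∧ a.Monic ∧ s.Monic ∧ m = m1 * (a ^ 2 * s) ∧
    s ∣ a * t ∧ κ m ≤ Real.sqrt (qr F) ^ m1.natDegree * qr F ^ (a ^ 2 * s).natDegree) →
  ∑ m ∈ Mn F μ, κ m ≤ C * qr F ^ ((3 / 2 + δ) * μ)

/-- **TE2** (hypotheses KPT, KDC, KSM and TAU of FC).
Proof.  `μ = ∑ x i`.  For `m ∈ M_μ` at most `tau(m)^k` of the `a ∈ Tup F x` have `∏ a = m` (every `a i` is in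
`Dv m`).  With the decomposition of KDC (for `t = h`) and KPT:
`|AP y m h - AV y m h| q^(y j + y j') ≤ 2 q^(∑ y) q^(deg h) tau(m)^2 sqrt(q)^(deg m1) q^(deg(a^2 s))` (`tau(m1) ≤ tau(m)`).
`tau(m)^(k+2) ≤ C q^(δ μ/2)` (TAU), and KSM with `δ/2` for
`κ m = |AP - AV| q^(y j + y j') / (2 q^(∑ y) q^(deg h) tau(m)^2)`. -/
def StTE2 : Prop := ∀ (F : Type) [Field F] [Fintype F] (k l : ℕ) (h : F[X]) (δ : ℝ), h ≠ 0 →
  0 < δ → ∃ C : ℝ, 1 ≤ C ∧ ∀ (x : Fin k → ℕ) (y : Fin l → ℕ) (j j' : Fin l), j ≠ j' →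
  (∑ a ∈ Tup F x, |(AP y (∏ i, a i) h : ℝ) - AV y (∏ i, a i) h|) * qr F ^ (y j + y j') ≤
    C * qr F ^ (∑ i, y i) * qr F ^ ((3 / 2 + δ) * ((∑ i, x i : ℕ) : ℝ))

/-! ### the main term -/

/-- **UAV** (hypothesis RAM of FC).
Proof.  `ν ∈ AC e`.  The map `u ↦ u %ₘ e` from `Lc m` to `Lc e` (`e | m`) is the reduction of the units
modulo `m` to the units modulo `e`: a surjective group homomorphism, all fibres have
`phi(m)/phi(e)` elements (surjectivity: Chinese remainder theorem, every unit modulo `e` is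
represented by a polynomial prime to `m`; then compare fibres by multiplication with a unit).
So `phi(e) sum_(u∈Lc m) ν(u h) = phi(m) sum_(x∈Lc e) ν(x h) = phi(m) cram e h` (RAM). -/
def StUAV : Prop := ∀ (F : Type) [Field F] [Fintype F] (m e h : F[X]) (ν : AddChar F[X] ℂ),
  m.Monic → e ∈ Dv m → ν ∈ Pr e →
  (phi e : ℂ) * ∑ u ∈ Lc m, ν (u * h) = (phi m : ℂ) * (cram e h : ℂ)

/-- **DAC** (hypothesis ACF of FC).
Proof.  For `ν ∈ AC m` the set of the `g` with `ν(g ·) = 1` is an ideal containing `m`, generated by a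
monic `e | m`, and `e` is the only monic polynomial with `ν ∈ Pr e`; `Pr e ⊆ AC e ⊆ AC m` for `e | m`. -/
def StDAC : Prop := ∀ (F : Type) [Field F] [Fintype F] (m : F[X]) (g : AddChar F[X] ℂ → ℂ),
  m.Monic → ∑ ν ∈ ACf m, g ν = ∑ e ∈ Dv m, ∑ ν ∈ Pr e, g ν

/-- **APM** (hypotheses UAV, DAC and ACF, RM2, PHI of FC).
Proof.  ACF: `q^(deg m) [m | f] = sum_(ν∈ACf m) ν(f)`.  So `q^(deg m) AV y m h` is
` (1/phi m) sum_(u∈Lc m) sum_(b) sum_(ν∈ACf m) ν(∏ b) ν(u (-h))`; DAC, and for `ν ∈ Pr e` UAV: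
` (1/phi m) sum_u ν(u (-h)) = cram e (-h)/phi e = cram e h/phi e`; `sum_(ν∈Pr e) ν(∏ b) = cram e (∏ b)`
(RM2). -/
def StAPM : Prop := ∀ (F : Type) [Field F] [Fintype F] (l : ℕ) (y : Fin l → ℕ) (m h : F[X]),
  m.Monic → AV y m h * qr F ^ m.natDegree = ∑ e ∈ Dv m, (cram e h : ℝ) * Vl e y

/-- **GPR** (divisibility of products, equidistribution).
Proof.  Induction on `k`, for all `e`.  `k = 0`: the product is 1, `Dc = [e = 1] = G_0(e)`.  Step: classify by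
the monic gcd `g` of `a_0` and `e`; `a_0 = g a'`, `a'` prime to `e/g`; since `x 0 ≥ deg e`, the number of the
`a_0 ∈ M_(x 0)` with gcd `g` is `phi(e/g) q^(x 0 - deg e)` (every residue class modulo `e` contains
`q^(x 0 - deg e)` elements of `M_(x 0)`, and `phi(e/g)` classes have gcd `g`).  Then `e | a_0 B` iff
` (e/g) | B`.  Induction for `e/g` (degree `≤ x i`):
`Dc e x = sum_(g∈Dv e) phi(e/g) q^(x 0 - deg e) q^(∑' x) G_k(e/g) / q^(deg(e/g))`, and with `e' = e/g` this is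
`q^(∑ x - deg e) sum_(e'∈Dv e) (phi e'/q^(deg e')) G_k(e') = q^(∑ x - deg e) G_(k+1)(e)`. -/
def StGPR : Prop := ∀ (F : Type) [Field F] [Fintype F] (k : ℕ) (x : Fin k → ℕ) (e : F[X]),
  e.Monic → (∀ i, e.natDegree ≤ x i) →
  (Dc e x : ℝ) * qr F ^ e.natDegree = qr F ^ (∑ i, x i) * Gk k e

/-- **VEX** (hypotheses GPR and MOB, PHI of FC).
Proof.  For `B ∈ F[X]` and `n ≥ deg e`: `sum_(f∈M_n) cram e (f B) = q^n phi(e) [e | B]`.  Indeed by the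
definition of `cram` the sum is `sum_(d∈Dv e) mob(e/d) q^(deg d) |{f∈M_n : d | f B}|`; with
`g = gcd(d, B)` monic the number is `q^(n - deg d + deg g)`, so we get
`q^n sum_(d∈Dv e) mob(e/d) q^(deg gcd(d,B))`, and `q^(deg gcd(d,B)) = sum_(c∈Dv d, c | B) phi(c)`; exchange the
sums: `sum_(c | e, c | B) phi(c) sum_(c | d | e) mob(e/d) = phi(e) [e | B]` (MOB).  (Or with the characters of
`Pr e`.)  Hence, splitting off `b_0`: `Vl e y = q^(y 0) Dc e (y o succ)`, and GPR. -/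
def StVEX : Prop := ∀ (F : Type) [Field F] [Fintype F] (l : ℕ) (y : Fin (l + 1) → ℕ) (e : F[X]),
  e.Monic → (∀ j, e.natDegree ≤ y j) → Vl e y * qr F ^ e.natDegree = qr F ^ (∑ j, y j) * Gk l e

/-- **DUB**.  Proof.  Induction on `k`, for all `e`.  `k = 0`: `Dc = [e = 1]`.  Step: with `d = gcd(a_0, e)`
monic, `d | a_0` and ` (e/d) | ∏ of the others`; `|{a_0 ∈ M_(x 0) : d | a_0}| ≤ q^(x 0)/q^(deg d)`; so
`Dc e x ≤ sum_(d∈Dv e) q^(x 0) q^(-deg d) Dc (e/d) (x o succ)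
≤ sum_(d∈Dv e) q^(∑ x) q^(-deg e) tau(e/d)^k ≤ q^(∑ x) q^(-deg e) tau(e)^(k+1)`. -/
def StDUB : Prop := ∀ (F : Type) [Field F] [Fintype F] (k : ℕ) (x : Fin k → ℕ) (e : F[X]),
  e.Monic → (Dc e x : ℝ) * qr F ^ e.natDegree ≤ qr F ^ (∑ i, x i) * tau e ^ k

/-- **VUB** (hypotheses DUB and PHI of FC).
Proof.  `|cram e f| ≤ sum_(d∈Dv e, d | f) q^(deg d)` (`|mob| ≤ 1`), so
`sum_b |cram e (∏ b)| ≤ sum_(d∈Dv e) q^(deg d) Dc d y ≤ q^(∑ y) sum_(d∈Dv e) tau(d)^l ≤ q^(∑ y) tau(e)^(l+1)`, and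
`q^(deg e) ≤ phi(e) tau(e)` (PHI). -/
def StVUB : Prop := ∀ (F : Type) [Field F] [Fintype F] (l : ℕ) (y : Fin l → ℕ) (e : F[X]),
  e.Monic → |Vl e y| * qr F ^ e.natDegree ≤ qr F ^ (∑ j, y j) * tau e ^ (l + 2)

/-- **CHB**.  Proof.  `|cram e h| ≤ sum_(d∈Dv e, d | h) q^(deg d)`, `|mob| ≤ 1`, `deg d ≤ deg h`, and these `d`
are in `Dv h`. -/
def StCHB : Prop := ∀ (F : Type) [Field F] [Fintype F] (e h : F[X]), e.Monic → h ≠ 0 →
  |(cram e h : ℝ)| ≤ tau h * qr F ^ h.natDegree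

/-- **MTB** (hypotheses APM, GPR, VEX, DUB, VUB, CHB and GKM, TAU, SSP of FC).
Proof.  `μ = ∑ x i`.  By APM (`∏ a` is monic of degree `μ`)
`sum_a AV y (∏ a) h = q^(-μ) sum_a sum_(e∈Dv(∏ a)) cram e h Vl e y = q^(-μ) sum_(i≤μ) sum_(e∈M_i) cram e h Vl e y Dc e x`
and `Dc e x = 0` if `deg e > μ`, so the sum may be taken over `i ≤ J` for any `J ≥ max(μ, L)`.
For `i ≤ L`: by GPR and VEX the term is `q^(∑ y) cram e h G_l(e) G_k(e) q^(-2i)`, so these `i` give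
`q^(∑ y) sum_(i≤L) Gs k l h i`.  For `i > L`: by DUB, VUB, CHB
`|term| ≤ q^(∑ y) tau(h) q^(deg h) tau(e)^(k+l+3) q^(-2i)`, `tau(e)^(k+l+3) ≤ C q^(i/4)` (TAU), `q^i` polynomials:
the sum over `i > L` is `≤ C' q^(∑ y) q^(-3L/4)`.  In the same way (GKM: `0 ≤ G_j ≤ tau^j`; CHB)
`|Gs k l h i| ≤ C' q^(-3i/4)`, so the tail of the series (summable: SSP) is `≤ C'' q^(-L/2)`. -/
def StMTB : Prop := ∀ (F : Type) [Field F] [Fintype F] (k l : ℕ) (h : F[X]), h ≠ 0 →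
  ∃ C : ℝ, 1 ≤ C ∧ ∀ (x : Fin k → ℕ) (y : Fin (l + 1) → ℕ) (L : ℕ), (∀ i, L ≤ x i) →
  (∀ j, L ≤ y j) →
  |∑ a ∈ Tup F x, AV y (∏ i, a i) h - qr F ^ (∑ j, y j) * ∑' i : ℕ, Gs k l h i| ≤
    C * qr F ^ (∑ j, y j) * qr F ^ (-(1 / 2 : ℝ) * L)

/-! ### the pattern theorem -/

/-- **PT1** (hypotheses RDN, TE1, TE2, MTB).
Proof.  `n > deg h`.  RDN for `i0`; `x' = x o i0.succAbove`, `μ = ∑ x' = n - x i0`.
`NS = sum_a AV + sum_a (AP - AV)`.  MTB with `L = ⌈ε n⌉` (natural number ceiling): error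
`C q^n q^(-ε n/2)`.  First case: TE1 with `δ' = ε/2`: `C q^(deg h) q^((1+δ')(n - x i0)) q^(n/2)`,
` (1+δ')(1/2-ε) n + n/2 ≤ (1 - ε/2) n`.  Second case: TE2 with `δ' = ε/2`, `j, j'`:
`C q^(n - (y j + y j')) q^((3/2+δ')(n - x i0)) ≤ C q^(n - ε n + δ' n)`.  So `δ = ε/4` and `n0` large. -/
def StPT1 : Prop := ∀ (F : Type) [Field F] [Fintype F] (k l : ℕ) (h : F[X]) (ε : ℝ), h ≠ 0 →
  0 < ε → ∃ (δ : ℝ) (n0 : ℕ), 0 < δ ∧ ∀ (n : ℕ) (x : Fin (k + 1) → ℕ) (y : Fin (l + 1) → ℕ)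
    (i0 : Fin (k + 1)), n0 ≤ n → ∑ i, x i = n → ∑ j, y j = n → (∀ i, ε * n ≤ x i) →
    (∀ j, ε * n ≤ y j) →
    ((1 / 2 + ε) * n ≤ x i0 ∨
      ∃ j j', j ≠ j' ∧ 3 / 2 * ((n : ℝ) - x i0) + ε * n ≤ (y j : ℝ) + y j') →
    |(NS x y h : ℝ) - qr F ^ n * ∑' i : ℕ, Gs k l h i| ≤ qr F ^ ((1 - δ) * n)

/-- **PT2** (hypothesis PT1).
Proof.  PT1 for ` (k, l, h)` and for ` (l, k, -h)`: `NS x y h = NS y x (-h)` (exchange `a` and `b`:
`∏ a + h = ∏ b` iff `∏ b + (-h) = ∏ a`) and `Gs k l h i = Gs l k (-h) i` (`cram r (-h) = cram r h`). -/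
def StPT2 : Prop := ∀ (F : Type) [Field F] [Fintype F] (k l : ℕ) (h : F[X]) (ε : ℝ), h ≠ 0 →
  0 < ε → ∃ (δ : ℝ) (n0 : ℕ), 0 < δ ∧ ∀ (n : ℕ) (x : Fin (k + 1) → ℕ) (y : Fin (l + 1) → ℕ),
    n0 ≤ n → ∑ i, x i = n → ∑ j, y j = n → Good ε n x y →
    |(NS x y h : ℝ) - qr F ^ n * ∑' i : ℕ, Gs k l h i| ≤ qr F ^ ((1 - δ) * n)

/-! ### counting degree patterns -/

/-- **CN1**.  Proof.  Induction on `k`: `Finset.Nat.antidiagonalTuple` of `k + 2` is the union over the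
first entry `i` of the tuples of length `k + 1` with sum `n - i`; hockey stick identity
(`Nat.sum_range_choose`-like: `sum_(i≤n) (i+k).choose k = (n+k+1).choose (k+1)`). -/
def StCN1 : Prop := ∀ k n : ℕ,
  (Finset.Nat.antidiagonalTuple (k + 1) n).card = (n + k).choose k

open scoped Classical in
/-- **CN2** (hypothesis CN1).  Proof.  `x ↦ x - c` is a bijection onto `antidiagonalTuple (k+1) (n - ∑ c)`. -/
def StCN2 : Prop := ∀ (k n : ℕ) (c : Fin (k + 1) → ℕ), ∑ i, c i ≤ n →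
  ((Finset.Nat.antidiagonalTuple (k + 1) n).filter (fun x => ∀ i, c i ≤ x i)).card =
    (n - ∑ i, c i + k).choose k

open scoped Classical in
/-- **CNB** (hypotheses CN1, CN2).
Proof.  Let `P_k` be the set of patterns, `β_k = 1 - (k+1)/2^k`.  `I_k` = patterns with all entries
`≥ ε n`; `G_k` = those of `I_k` with an entry `≥ (1/2+ε) n` (at most one entry can be so large).
CN2 with `c i = ⌈ε n⌉`: `|I_k| = (n - (k+1)⌈ε n⌉ + k).choose k ≥ ((1 - (k+1) ε) n - (k+1))^k/k!`, and with one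
`c i` equal to `⌈(1/2+ε) n⌉` (`k+1` choices, disjoint sets):
`|G_k| = (k+1) (n - ⌈(1/2+ε) n⌉ - k⌈ε n⌉ + k).choose k`, which is between
` (k+1) ((1/2 - (k+1) ε) n - (k+1))^k/k!` and ` (k+1) (n/2 + k)^k/k!`.  The pairs in
`I_k x I_l` with `x ∈ G_k` or `y ∈ G_l` are good; their number is
`|G_k||I_l| + (|I_k| - |G_k|)|G_l|`.  As `n → ∞` and then `ε → 0`, divided by `n^(k+l)/(k! l!)` it tends to
` (1-β_k) + β_k (1-β_l) = 1 - β_k β_l`. -/
def StCNB : Prop := ∀ (k l : ℕ) (η : ℝ), 0 < η → ∃ (ε : ℝ) (n0 : ℕ), 0 < ε ∧ ∀ n : ℕ, n0 ≤ n →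
  (1 - (1 - ((k : ℝ) + 1) / 2 ^ k) * (1 - ((l : ℝ) + 1) / 2 ^ l) - η) *
      ((n : ℝ) ^ (k + l) / (k.factorial * l.factorial)) ≤
    (((Finset.Nat.antidiagonalTuple (k + 1) n ×ˢ Finset.Nat.antidiagonalTuple (l + 1) n).filter
      (fun p => Good ε n p.1 p.2)).card : ℝ)

/-- the numerator of the length bound in CC2 -/
def TT (p r : ℕ) : ℕ := min (min (12 * (p + 1)) 144) (192 - 4 * r) - 3 * p

/-- **CC1** (numerical).  Proof.  `decide +kernel` (or `rfl`-like evaluation); the value is about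
3.88 million. -/
def StCC1 : Prop := ∑ p ∈ Finset.range 49, ∑ r ∈ Finset.range 49, TT p r * TT r p ≤ 3900000

open scoped Classical in
/-- **CC2** (bad patterns in terms of maxima and minima).
Proof.  Let ` (x, y)` be a pair of patterns (`∑ = n`) that is not good although all entries are `≥ ε n`.
Let `u ≥ w ≥ v` be the sorted entries of `x` (`u + w + v = n`), `s, t` the largest and the smallest entry of
`y`.  Then `u < (1/2+ε) n`, `s < (1/2+ε) n`; taking the two largest entries of `y`: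
`n - t < (3/2)(n - u) + ε n`, i.e. `3u < n + 2t + 2εn`; symmetrically `3s < n + 2v + 2εn`.  At most 6
patterns `x` have the same ` (u, v)`, and at most 6 patterns `y` the same ` (s, t)`. -/
def StCC2 : Prop := ∀ (ε : ℝ) (n : ℕ), 0 < ε →
  ((Finset.Nat.antidiagonalTuple 3 n ×ˢ Finset.Nat.antidiagonalTuple 3 n).filter
    (fun p : (Fin 3 → ℕ) × (Fin 3 → ℕ) => (∀ i, ε * n ≤ p.1 i) ∧ (∀ j, ε * n ≤ p.2 j) ∧
      ¬ Good ε n p.1 p.2)).card ≤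
  36 * ((Finset.range (n + 1) ×ˢ Finset.range (n + 1) ×ˢ Finset.range (n + 1) ×ˢ
    Finset.range (n + 1)).filter (fun z : ℕ × ℕ × ℕ × ℕ =>
      3 * z.2.1 ≤ n ∧ n ≤ 2 * z.1 + z.2.1 ∧ z.1 + 2 * z.2.1 ≤ n ∧
      3 * z.2.2.2 ≤ n ∧ n ≤ 2 * z.2.2.1 + z.2.2.2 ∧ z.2.2.1 + 2 * z.2.2.2 ≤ n ∧
      (z.1 : ℝ) ≤ (1 / 2 + ε) * n ∧ (z.2.2.1 : ℝ) ≤ (1 / 2 + ε) * n ∧
      3 * (z.1 : ℝ) ≤ n + 2 * z.2.2.2 + 2 * ε * n ∧
      3 * (z.2.2.1 : ℝ) ≤ n + 2 * z.2.1 + 2 * ε * n)).card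

open scoped Classical in
/-- **CC3** (cells).  `z = (u, v, s, t)`.
Proof.  For `v ≤ n/3` there is `p ∈ {0,…,48}` with ` (48 - p - 1) n < 144 v ≤ (48 - p) n` (for `v = 0` take
`p = 48`), and `r` in the same way for `t`.  For given `p` there are at most `n/144 + 1` values of `v`, for
given `r` at most `n/144 + 1` values of `t`.  For given `v, t` (with indices `p, r`):
`u ≥ (n - v)/2 ≥ n (1/3 + p/288)`, and `u ≤ n - 2v ≤ n (1/3 + (p+1)/72)`, `u ≤ (1/2+ε) n`,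
`u ≤ (n + 2t)/3 + ε n ≤ n (5/9 - r/216) + ε n`.  So `u` lies in an interval of length at most
`n TT(p,r)/864 + ε n` (or there is no `u` beyond `ε n + 1` many if the truncated difference is 0), which
contains at most `n TT(p,r)/864 + ε n + 1` integers.  The same for `s` with `TT(r,p)`. -/
def StCC3 : Prop := ∀ (ε : ℝ) (n : ℕ), 0 < ε →
  (((Finset.range (n + 1) ×ˢ Finset.range (n + 1) ×ˢ Finset.range (n + 1) ×ˢ
    Finset.range (n + 1)).filter (fun z : ℕ × ℕ × ℕ × ℕ =>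
      3 * z.2.1 ≤ n ∧ n ≤ 2 * z.1 + z.2.1 ∧ z.1 + 2 * z.2.1 ≤ n ∧
      3 * z.2.2.2 ≤ n ∧ n ≤ 2 * z.2.2.1 + z.2.2.2 ∧ z.2.2.1 + 2 * z.2.2.2 ≤ n ∧
      (z.1 : ℝ) ≤ (1 / 2 + ε) * n ∧ (z.2.2.1 : ℝ) ≤ (1 / 2 + ε) * n ∧
      3 * (z.1 : ℝ) ≤ n + 2 * z.2.2.2 + 2 * ε * n ∧
      3 * (z.2.2.1 : ℝ) ≤ n + 2 * z.2.1 + 2 * ε * n)).card : ℝ) ≤
  ∑ p ∈ Finset.range 49, ∑ r ∈ Finset.range 49, ((n : ℝ) / 144 + 1) ^ 2 *
    ((n : ℝ) * TT p r / 864 + ε * n + 1) * ((n : ℝ) * TT r p / 864 + ε * n + 1)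

open scoped Classical in
/-- **CNC** (hypotheses CC1, CC2, CC3, CN1, CN2).
Proof.  `ε = 10^(-6)`.  All pairs: ` ((n+2)(n+1)/2)^2 ≥ n^4/4`.  Pairs with an entry `< ε n`: at most
`6 (ε n + 1)(n + 1) (n+1)(n+2)/2` (6 positions; the entry, one more entry of the same triple, the other
triple).  The remaining bad pairs: CC2, CC3; as `n → ∞` their number divided by `n^4` is at most
`36/144^2 sum_(p,r) (TT(p,r)/864 + ε)(TT(r,p)/864 + ε) + o(1)`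
`≤ 36/(144^2 864^2) 3900000 + 36/144^2 * 49^2 * (2 ε + ε^2) + o(1)` (`TT ≤ 144`, `TT/864 ≤ 1`), and
`36 * 3900000/(144^2 * 864^2) < 0.00907 = (1/4) 0.0363`.  So the number of good pairs is at least
` (1 - 0.0363 - 0.0001) n^4/4 - o(n^4)`, and `1 - 0.0364 > 961/1000`. -/
def StCNC : Prop := ∃ (ε : ℝ) (n0 : ℕ), 0 < ε ∧ ∀ n : ℕ, n0 ≤ n →
  (961 / 1000 : ℝ) * ((n : ℝ) ^ 4 / 4) ≤
    (((Finset.Nat.antidiagonalTuple 3 n ×ˢ Finset.Nat.antidiagonalTuple 3 n).filter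
      (fun p : (Fin 3 → ℕ) × (Fin 3 → ℕ) => Good ε n p.1 p.2)).card : ℝ)

/-- **FNE** (final; hypotheses PT2, CRR, CNB, CNC, CN1 and SSP of FC).
Proof.  (b) Given `η`, CNB with `η/2` gives `ε`, PT2 gives `δ`; by CRR
`Corr ≥ sum over the good pairs of NS ≥ N (S q^n - q^((1-δ) n))`, `S = ∑' Gs k l h i ≥ c > 0` (SSP),
`N` = the number of good pairs, `N ≥ (1 - β β' - η/2) n^(k+l)/(k! l!)` and (for the error term)
`N ≤ (n+1)^(k+l+2)`.  (c) the same with CNC: `961/1000 - o(1) > 24/25`. -/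
def StFNE : Prop := ∀ (F : Type) [Field F] [Fintype F] (h : F[X]), h ≠ 0 →
  (∀ (k l : ℕ) (η : ℝ), 0 < η → ∃ n0 : ℕ, ∀ n : ℕ, n0 ≤ n →
    (1 - (1 - ((k : ℝ) + 1) / 2 ^ k) * (1 - ((l : ℝ) + 1) / 2 ^ l) - η) *
      ((∑' i : ℕ, Gs k l h i) * qr F ^ n * (n : ℝ) ^ (k + l) / (k.factorial * l.factorial)) ≤
      (Corr F (k + 1) (l + 1) n h : ℝ)) ∧
  ∃ n0 : ℕ, ∀ n : ℕ, n0 ≤ n →
    24 / 25 * ((∑' i : ℕ, Gs 2 2 h i) * qr F ^ n * (n : ℝ) ^ 4 / 4) ≤ (Corr F 3 3 n h : ℝ)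

end

end Pool.Agent.Helper15.EP
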